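import Pool.Agent.J6H20.LES.Final

/-!
# Global weak solutions of the Gradient (Taylor) LES model

For every bounded open set `Ω ⊆ ℝ³`, all `Re, δ, T > 0`, every divergence free initial field in
`W^{1,p}_0(Ω)` (`p ≥ 2`, so in particular `p = 3`) and every integrable force (in particular
every force in `H¹(0,T;L²_σ)`), the Gradient (Taylor) LES model without added dissipation has a
weak solution on `(0,T)`.  The proof is by convex integration.
-/

set_option autoImplicit false

open MeasureTheory Set Filter Topology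
open scoped ContDiff ENNReal NNReal

namespace Pool.Agent.Results.MP_544ca6_an.GradientModel

/-- `u` lies in `W^{1,p}_0(Ω)`, the closure of the smooth fields with compact support in `Ω` in the
`W^{1,p}` norm, and `G` is its gradient: `G x i l = ∂_l u^i (x)`.  The field `u` has zero
divergence. -/
structure DivFreeW0 (p : ℝ≥0∞) (Ω : Set (Fin 3 → ℝ)) (u : (Fin 3 → ℝ) → Fin 3 → ℝ)
    (G : (Fin 3 → ℝ) → Fin 3 → Fin 3 → ℝ) : Prop where
  memLp : ∀ i, MemLp (fun x => u x i) p (volume.restrict Ω)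
  memLp_grad : ∀ i l, MemLp (fun x => G x i l) p (volume.restrict Ω)
  approx : ∀ ε : ℝ, 0 < ε → ∃ v : (Fin 3 → ℝ) → Fin 3 → ℝ, ContDiff ℝ ∞ v ∧ HasCompactSupport v ∧
    tsupport v ⊆ Ω ∧
    (∀ i, eLpNorm (fun x => u x i - v x i) p (volume.restrict Ω) ≤ ENNReal.ofReal ε) ∧
    (∀ i l, eLpNorm (fun x => G x i l - fderiv ℝ v x (Pi.single l 1) i) p (volume.restrict Ω) ≤
      ENNReal.ofReal ε)
  div : ∀ᵐ x ∂(volume.restrict Ω), ∑ i, G x i i = 0

/-- Test fields on `Ω × [0,T)`: restrictions of smooth fields with compact support in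
`(-∞,T) × Ω`, divergence free for times in `(0,T)`.  A point of space-time is `z = (t, x)`. -/
structure TestField (Ω : Set (Fin 3 → ℝ)) (T : ℝ) (φ : ℝ × (Fin 3 → ℝ) → Fin 3 → ℝ) : Prop where
  smooth : ContDiff ℝ ∞ φ
  compact : HasCompactSupport φ
  supp : tsupport φ ⊆ Iio T ×ˢ Ω
  div : ∀ z ∈ Ioo 0 T ×ˢ Ω, ∑ i, fderiv ℝ φ z (0, Pi.single i 1) i = 0

/-- The integrand of the weak formulation:
`-w·φ_t + (w·∇)w·φ + (1/Re) ∇w:∇φ - (δ²/12) (∇w ∇wᵀ):∇φ - f·φ`, where `G z i l = ∂_l w^i (z)`. -/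
noncomputable def integrand (Re δ : ℝ) (f w : ℝ × (Fin 3 → ℝ) → Fin 3 → ℝ)
    (G : ℝ × (Fin 3 → ℝ) → Fin 3 → Fin 3 → ℝ) (φ : ℝ × (Fin 3 → ℝ) → Fin 3 → ℝ)
    (z : ℝ × (Fin 3 → ℝ)) : ℝ :=
  -(∑ i, w z i * fderiv ℝ φ z (1, 0) i) + ∑ i, (∑ l, w z l * G z i l) * φ z i +
    1 / Re * (∑ i, ∑ l, G z i l * fderiv ℝ φ z (0, Pi.single l 1) i) -
    δ ^ 2 / 12 * (∑ i, ∑ j, (∑ l, G z i l * G z j l) * fderiv ℝ φ z (0, Pi.single j 1) i) -
    ∑ i, f z i * φ z i

/-- `w`, with spatial gradient `G`, is a weak solution on `(0,T)` of the Gradient (Taylor) LES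
model with force `f` and initial value `w0`: `w ∈ L^∞(0,T;L²_σ) ∩ L²(0,T;H¹_{0,σ})` and the weak
formulation holds for all test fields. -/
structure IsWeakSolution (Ω : Set (Fin 3 → ℝ)) (T Re δ : ℝ)
    (f : ℝ × (Fin 3 → ℝ) → Fin 3 → ℝ) (w0 : (Fin 3 → ℝ) → Fin 3 → ℝ)
    (w : ℝ × (Fin 3 → ℝ) → Fin 3 → ℝ) (G : ℝ × (Fin 3 → ℝ) → Fin 3 → Fin 3 → ℝ) : Prop where
  memLp : ∀ i, MemLp (fun z => w z i) 2 (volume.restrict (Ioo 0 T ×ˢ Ω))
  memLp_grad : ∀ i l, MemLp (fun z => G z i l) 2 (volume.restrict (Ioo 0 T ×ˢ Ω))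
  mem_H10 : ∀ᵐ t ∂(volume.restrict (Ioo 0 T)),
    DivFreeW0 2 Ω (fun x => w (t, x)) (fun x => G (t, x))
  bounded : ∃ C : ℝ, ∀ t ∈ Ioo 0 T, ∀ i,
    eLpNorm (fun x => w (t, x) i) 2 (volume.restrict Ω) ≤ ENNReal.ofReal C
  integrable : ∀ φ, TestField Ω T φ →
    IntegrableOn (integrand Re δ f w G φ) (Ioo 0 T ×ˢ Ω)
  weak : ∀ φ, TestField Ω T φ →
    ∫ z in Ioo 0 T ×ˢ Ω, integrand Re δ f w G φ z = ∫ x in Ω, ∑ i, w0 x i * φ (0, x) i

open Pool.Agent.J6H20.LES in
theorem TestField.toTest {Ω : Set (Fin 3 → ℝ)} {T : ℝ} {φ : ℝ × (Fin 3 → ℝ) → Fin 3 → ℝ}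
    (h : TestField Ω T φ) : Test Ω T φ where
  smooth := h.smooth
  compact := h.compact
  supp := h.supp
  div z hz := by
    have hd : ∀ i, dd (ex i) (fun y => φ y i) z = fderiv ℝ φ z (0, Pi.single i 1) i := by
      intro i
      unfold dd ex
      rw [fderiv_apply (h.smooth.differentiable (by simp) z)]
      rfl
    simp only [hd]
    by_cases hzD : z ∈ Ioo 0 T ×ˢ Ω
    · exact h.div z hzD
    · have h1 : z ∉ tsupport φ := fun hs => hzD ⟨⟨hz, (h.supp hs).1⟩, (h.supp hs).2⟩
      have h2 : fderiv ℝ φ z = 0 :=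
        image_eq_zero_of_notMem_tsupport (fun hs => h1 (tsupport_fderiv_subset ℝ hs))
      simp [h2]

open Pool.Agent.J6H20.LES in
theorem result (Ω : Set (Fin 3 → ℝ)) (hΩ : IsOpen Ω) (hb : Bornology.IsBounded Ω)
    (Re δ T : ℝ) (hRe : 0 < Re) (hδ : 0 < δ) (hT : 0 < T) (p : ℝ≥0∞) (hp : 2 ≤ p)
    (w0 : (Fin 3 → ℝ) → Fin 3 → ℝ) (G0 : (Fin 3 → ℝ) → Fin 3 → Fin 3 → ℝ)
    (h0 : DivFreeW0 p Ω w0 G0) (f : ℝ × (Fin 3 → ℝ) → Fin 3 → ℝ)
    (hf : ∀ i, IntegrableOn (fun z => f z i) (Ioo 0 T ×ˢ Ω)) :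
    ∃ (w : ℝ × (Fin 3 → ℝ) → Fin 3 → ℝ) (G : ℝ × (Fin 3 → ℝ) → Fin 3 → Fin 3 → ℝ),
      IsWeakSolution Ω T Re δ f w0 w G := by
  have hDm := measurableSet_dom hΩ T
  have hW : W0 2 Ω w0 G0 :=
    W0.mono (by norm_num) (by norm_num) hp hb ⟨h0.memLp, h0.memLp_grad, h0.approx⟩
  set f' : X → Fin 3 → ℝ := fun z i => (dom Ω T).indicator (fun z => f z i) z with hf'
  have hf'i : ∀ i, Integrable (fun z => f' z i) := fun i =>
    (integrable_indicator_iff hDm).2 (hf i)
  have hf's : ∀ z, z ∉ dom Ω T → ∀ i, f' z i = 0 := fun z hz i => indicator_of_notMem hz _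
  obtain ⟨w, G, hst, hsl, hbd, hN⟩ := exists_solution hΩ hb hT (ν := 1 / Re) (κ := δ ^ 2 / 12)
    (by positivity) (by positivity) hf'i hf's hW h0.div
  have key : ∀ φ, TestField Ω T φ → IntegrableOn (integrand Re δ f w G φ) (Ioo 0 T ×ˢ Ω) ∧
      ∫ z in Ioo 0 T ×ˢ Ω, integrand Re δ f w G φ z =
        Nf (1 / Re) (δ ^ 2 / 12) f' w G φ := by
    intro φ hφ'
    have hφ := hφ'.toTest
    have hdt : ∀ z i, fderiv ℝ φ z (1, 0) i = dd et (fun y => φ y i) z := by
      intro z i
      unfold dd et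
      rw [fderiv_apply (hφ.smooth.differentiable (by simp) z)]
      rfl
    have hdx : ∀ z i l, fderiv ℝ φ z (0, Pi.single l 1) i = dd (ex l) (fun y => φ y i) z := by
      intro z i l
      unfold dd ex
      rw [fderiv_apply (hφ.smooth.differentiable (by simp) z)]
      rfl
    have iw : ∀ i, Integrable (fun z => w z i * dd et (fun y => φ y i) z) := fun i =>
      (hst.mw i).integrable_mul ((hφ.comp i).dd et).memLp
    have iGw : ∀ i, Integrable (fun z => (∑ l, G z i l * w z l) * φ z i) := fun i =>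
      integrable_mul_cc (integrable_finsetSum _ fun l _ => (hst.mG i l).integrable_mul (hst.mw l))
        (hφ.comp i)
    have iG : ∀ i l, Integrable (fun z => G z i l * dd (ex l) (fun y => φ y i) z) := fun i l =>
      (hst.mG i l).integrable_mul ((hφ.comp i).dd (ex l)).memLp
    have iGG : ∀ i j, Integrable (fun z => (∑ l, G z i l * G z j l) *
        dd (ex j) (fun y => φ y i) z) := fun i j =>
      integrable_mul_cc (integrable_finsetSum _ fun l _ => (hst.mG i l).integrable_mul (hst.mG j l))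
        ((hφ.comp i).dd (ex j))
    have ifφ : ∀ i, Integrable (fun z => f' z i * φ z i) := fun i =>
      integrable_mul_cc (hf'i i) (hφ.comp i)
    have j1 : Integrable (fun z => ∑ i, -(w z i * dd et (fun y => φ y i) z)) :=
      integrable_finsetSum _ fun i _ => (iw i).neg
    have j2 : Integrable (fun z => ∑ i, (∑ l, G z i l * w z l) * φ z i) :=
      integrable_finsetSum _ fun i _ => iGw i
    have j3 : Integrable (fun z => 1 / Re *
        ∑ i, ∑ l, G z i l * dd (ex l) (fun y => φ y i) z) :=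
      (integrable_finsetSum _ fun i _ => integrable_finsetSum _ fun l _ => iG i l).const_mul _
    have j4 : Integrable (fun z => δ ^ 2 / 12 *
        ∑ i, ∑ j, (∑ l, G z i l * G z j l) * dd (ex j) (fun y => φ y i) z) :=
      (integrable_finsetSum _ fun i _ => integrable_finsetSum _ fun j _ => iGG i j).const_mul _
    have j5 : Integrable (fun z => ∑ i, f' z i * φ z i) :=
      integrable_finsetSum _ fun i _ => ifφ i
    have hint : (dom Ω T).indicator (integrand Re δ f w G φ) = fun z =>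
        ((((∑ i, -(w z i * dd et (fun y => φ y i) z)) + ∑ i, (∑ l, G z i l * w z l) * φ z i) +
        1 / Re * ∑ i, ∑ l, G z i l * dd (ex l) (fun y => φ y i) z) -
        δ ^ 2 / 12 * ∑ i, ∑ j, (∑ l, G z i l * G z j l) * dd (ex j) (fun y => φ y i) z) -
        ∑ i, f' z i * φ z i := by
      ext z
      by_cases hz : z ∈ dom Ω T
      · rw [indicator_of_mem hz]
        unfold integrand
        simp only [hdt, hdx, hf', indicator_of_mem hz, Finset.sum_neg_distrib]
        congr 4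
        refine Finset.sum_congr rfl fun i _ => ?_
        congr 1
        exact Finset.sum_congr rfl fun l _ => mul_comm _ _
      · rw [indicator_of_notMem hz]
        simp only [hst.sw z hz, hst.sG z hz, hf's z hz]
        simp
    have hI := (((j1.add j2).add j3).sub j4).sub j5
    constructor
    · have h1 : Integrable ((dom Ω T).indicator (integrand Re δ f w G φ)) := by
        rw [hint]; exact hI
      exact (integrable_indicator_iff hDm).1 h1
    · have e0 : ∫ z in Ioo 0 T ×ˢ Ω, integrand Re δ f w G φ z =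
          ∫ z, (dom Ω T).indicator (integrand Re δ f w G φ) z :=
        (integral_indicator hDm).symm
      rw [e0, hint]
      have e1 := integral_sub (((j1.add j2).add j3).sub j4) j5
      have e2 := integral_sub ((j1.add j2).add j3) j4
      have e3 := integral_add (j1.add j2) j3
      have e4 := integral_add j1 j2
      have s1 : ∫ z, ∑ i, -(w z i * dd et (fun y => φ y i) z) =
          ∑ i, - ∫ z, w z i * dd et (fun y => φ y i) z := by
        have h1 := integral_finsetSum (μ := (volume : Measure X)) (Finset.univ : Finset (Fin 3))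
          (f := fun i z => -(w z i * dd et (fun y => φ y i) z)) (fun i _ => (iw i).neg)
        rw [h1]
        exact Finset.sum_congr rfl fun i _ => integral_neg _
      have s2 : ∫ z, ∑ i, (∑ l, G z i l * w z l) * φ z i =
          ∑ i, ∫ z, (∑ l, G z i l * w z l) * φ z i :=
        integral_finsetSum _ fun i _ => iGw i
      have s3 : ∫ z, 1 / Re * ∑ i, ∑ l, G z i l * dd (ex l) (fun y => φ y i) z =
          1 / Re * ∑ i, ∑ l, ∫ z, G z i l * dd (ex l) (fun y => φ y i) z := by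
        rw [integral_const_mul, integral_finsetSum _ fun i _ =>
          integrable_finsetSum _ fun l _ => iG i l]
        congr 1
        exact Finset.sum_congr rfl fun i _ => integral_finsetSum _ fun l _ => iG i l
      have s4 : ∫ z, δ ^ 2 / 12 *
          ∑ i, ∑ j, (∑ l, G z i l * G z j l) * dd (ex j) (fun y => φ y i) z =
          δ ^ 2 / 12 * ∑ i, ∑ j, ∫ z, (∑ l, G z i l * G z j l) *
            dd (ex j) (fun y => φ y i) z := by
        rw [integral_const_mul, integral_finsetSum _ fun i _ =>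
          integrable_finsetSum _ fun j _ => iGG i j]
        congr 1
        exact Finset.sum_congr rfl fun i _ => integral_finsetSum _ fun j _ => iGG i j
      have s5 : ∫ z, ∑ i, f' z i * φ z i = ∑ i, ∫ z, f' z i * φ z i :=
        integral_finsetSum _ fun i _ => ifφ i
      simp only [Pi.add_apply, Pi.sub_apply] at e1 e2 e3 e4
      rw [e1, e2, e3, e4, s1, s2, s3, s4, s5]
      rfl
  refine ⟨w, G, ⟨fun i => (hst.mw i).restrict _, fun i l => (hst.mG i l).restrict _, ?_, hbd,
    fun φ hφ => (key φ hφ).1, fun φ hφ => ?_⟩⟩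
  · filter_upwards [hsl] with t ht
    exact ⟨ht.1.mw, ht.1.mG, ht.1.app, ht.2⟩
  · rw [(key φ hφ).2]
    exact hN φ hφ.toTest

end Pool.Agent.Results.MP_544ca6_an.GradientModel
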